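import Pool.Agent.H664.FH.Stm2

/-!
# Project FH (helper664), JOB EXITJ: the level sets of `∑ α_l log ‖p_l‖`, `α` supported in `J`, leave small neighbourhoods
(adapted from Pool/Agent/H297/FH/Exit.lean)
-/

set_option autoImplicit false

namespace Pool.Agent.H824.FH
open MvPolynomial Filter Topology Metric

theorem finite_zeros_one (g : MvPolynomial (Fin 1) ℂ) (hg : g ≠ 0) :
    {y : ℂ | eval ![y] g = 0}.Finite := by
  set P : Polynomial ℂ := aeval (fun _ : Fin 1 => (Polynomial.X : Polynomial ℂ)) g with hP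
  have hev : ∀ y : ℂ, P.eval y = eval ![y] g := by
    intro y
    have h1 : (Polynomial.evalRingHom y).comp
        (aeval (R := ℂ) (fun _ : Fin 1 => (Polynomial.X : Polynomial ℂ))).toRingHom =
        (eval ![y] : MvPolynomial (Fin 1) ℂ →+* ℂ) := by
      apply MvPolynomial.ringHom_ext
      · intro r; simp
      · intro j; simp
    exact congrArg (fun h : MvPolynomial (Fin 1) ℂ →+* ℂ => h g) h1
  have hP0 : P ≠ 0 := by
    intro h0
    apply hg
    apply MvPolynomial.funext
    intro x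
    have : x = ![x 0] := by ext j; fin_cases j; rfl
    rw [this, ← hev, h0]
    simp
  refine (P.rootSet_finite ℂ).subset ?_
  intro y hy
  rw [Polynomial.mem_rootSet]
  refine ⟨hP0, ?_⟩
  rw [Polynomial.coe_aeval_eq_eval, hev]
  exact hy

theorem cont_eval2 (f : MvPolynomial (Fin 2) ℂ) :
    Continuous (fun v : ℂ × ℂ => eval ![v.1, v.2] f) := by
  have h1 := MvPolynomial.continuous_eval f
  refine h1.comp ?_
  refine continuous_pi (fun j => ?_)
  fin_cases j
  · exact continuous_fst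
  · exact continuous_snd

/-- limits of solutions of `f = 0` over `a` -/
theorem lim_vals (f : MvPolynomial (Fin 2) ℂ) (hf : f ≠ 0) (a : ℂ) :
    ∃ S : Set ℂ, S.Finite ∧ ∀ y : ℂ,
      (a, y) ∈ closure {v : ℂ × ℂ | v.1 ≠ a ∧ eval ![v.1, v.2] f = 0} → y ∈ S := by
  set F := finSuccEquiv ℂ 1 f with hF
  have hF0 : F ≠ 0 := by
    rw [hF]
    simpa using hf
  obtain ⟨q, hq, hnd⟩ := Polynomial.exists_eq_pow_rootMultiplicity_mul_and_not_dvd F hF0 (C a)
  have hqa : q.eval (C a) ≠ 0 := fun h => hnd (Polynomial.dvd_iff_isRoot.mpr h)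
  set f' : MvPolynomial (Fin 2) ℂ := (finSuccEquiv ℂ 1).symm q with hf'
  have hev : ∀ (g : MvPolynomial (Fin 2) ℂ) (x y : ℂ), eval ![x, y] g =
      Polynomial.eval x (Polynomial.map (eval ![y]) (finSuccEquiv ℂ 1 g)) := by
    intro g x y
    exact MvPolynomial.eval_eq_eval_mv_eval' ![y] x g
  have hev' : ∀ x y : ℂ, eval ![x, y] f' = Polynomial.eval x (Polynomial.map (eval ![y]) q) := by
    intro x y
    rw [hev, hf', AlgEquiv.apply_symm_apply]
  refine ⟨{y | eval ![y] (q.eval (C a)) = 0}, finite_zeros_one _ hqa, ?_⟩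
  intro y hy
  have hclosed : IsClosed {v : ℂ × ℂ | eval ![v.1, v.2] f' = 0} :=
    isClosed_eq (cont_eval2 f') continuous_const
  have hsub : {v : ℂ × ℂ | v.1 ≠ a ∧ eval ![v.1, v.2] f = 0} ⊆
      {v : ℂ × ℂ | eval ![v.1, v.2] f' = 0} := by
    rintro ⟨x, y'⟩ ⟨hx, hxy⟩
    simp only [Set.mem_ofPred_eq] at hx hxy ⊢
    rw [hev, ← hF, hq, Polynomial.map_mul, Polynomial.eval_mul, Polynomial.map_pow,
      Polynomial.eval_pow, Polynomial.map_sub, Polynomial.map_X, Polynomial.map_C,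
      Polynomial.eval_sub, Polynomial.eval_X, Polynomial.eval_C, eval_C] at hxy
    rw [hev']
    rcases mul_eq_zero.mp hxy with h | h
    · exact absurd h (pow_ne_zero _ (sub_ne_zero.mpr hx))
    · exact h
  have h1 := closure_minimal hsub hclosed hy
  simp only [Set.mem_ofPred_eq] at h1 ⊢
  rw [hev', Polynomial.eval_map] at h1
  rw [← h1]
  have h2 := Polynomial.hom_eval₂ q (RingHom.id _) (eval ![y]) (C a)
  rw [Polynomial.eval₂_id, RingHom.comp_id, eval_C] at h2
  exact h2

/-- `∑ α_l Log (p_l / s_l)` -/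
noncomputable def Phi {n : ℕ} (α : Fin n → ℝ) (s p : Fin n → ℂ) : ℂ :=
  ∑ l, (α l : ℂ) * Complex.log (p l / s l)

theorem slit_of_near {z : ℂ} {ρ : ℝ} (hρ : ρ < 1 / 2) (h : ‖z - 1‖ ≤ ρ) : z ∈ Complex.slitPlane := by
  have h1 : |(z - 1).re| ≤ ‖z - 1‖ := Complex.abs_re_le_norm _
  have h2 : (z - 1).re = z.re - 1 := by simp
  rw [h2] at h1
  left
  have := abs_le.mp (h1.trans h)
  linarith [this.1]

theorem Phi_reJ {n : ℕ} (J : Finset (Fin n)) (α : Fin n → ℝ) (hα : ∀ l, l ∉ J → α l = 0)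
    (s p : Fin n → ℂ) (hs : ∀ l ∈ J, s l ≠ 0) (hp : ∀ l ∈ J, p l ≠ 0) :
    (Phi α s p).re = ∑ l, α l * Real.log ‖p l‖ - ∑ l, α l * Real.log ‖s l‖ := by
  unfold Phi
  rw [Complex.re_sum, ← Finset.sum_sub_distrib]
  refine Finset.sum_congr rfl (fun l _ => ?_)
  by_cases hl : l ∈ J
  · rw [Complex.re_ofReal_mul, Complex.log_re, norm_div,
      Real.log_div (norm_ne_zero_iff.mpr (hp l hl)) (norm_ne_zero_iff.mpr (hs l hl))]
    ring
  · rw [hα l hl]
    simp

/-- the level only depends on the coordinates in `J` -/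
theorem lev_congr {n : ℕ} (J : Finset (Fin n)) (α : Fin n → ℝ) (hα : ∀ l, l ∉ J → α l = 0)
    (p q : Fin n → ℂ) (h : ∀ l ∈ J, p l = q l) :
    ∑ l, α l * Real.log ‖p l‖ = ∑ l, α l * Real.log ‖q l‖ := by
  refine Finset.sum_congr rfl (fun l _ => ?_)
  by_cases hl : l ∈ J
  · rw [h l hl]
  · rw [hα l hl]; simp

theorem Phi_congr {n : ℕ} (J : Finset (Fin n)) (α : Fin n → ℝ) (hα : ∀ l, l ∉ J → α l = 0)
    (s p q : Fin n → ℂ) (h : ∀ l ∈ J, p l = q l) : Phi α s p = Phi α s q := by
  unfold Phi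
  refine Finset.sum_congr rfl (fun l _ => ?_)
  by_cases hl : l ∈ J
  · rw [h l hl]
  · rw [hα l hl]; simp

theorem exitJ (hcurve : Pool.Agent.H664.FH.S_curveJ) : Pool.Agent.H664.FH.S_exitJ := by
  classical
  intro n J α i G b hiJ hQ hG hb hbd hpair hgood
  have hα := hQ.1
  choose f hf0 hf using hpair
  have hS : ∀ (a : ℂ) (l : Fin n), ∃ S : Set ℂ, S.Finite ∧ ∀ y : ℂ,
      (a, y) ∈ closure {v : ℂ × ℂ | v.1 ≠ a ∧ eval ![v.1, v.2] (f i l) = 0} → y ∈ S :=
    fun a l => lim_vals (f i l) (hf0 i l) a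
  choose S hSfin hSlim using hS
  refine ⟨⋃ a ∈ b.roots.toFinset, (fun q : Fin n → ℂ => ∑ l, α l * Real.log ‖q l‖) ''
    (Set.pi Set.univ (fun l => if l ∈ J then S a l else {1})), ?_, ?_⟩
  · refine Set.Finite.biUnion (Finset.finite_toSet _) (fun a _ => ?_)
    refine (Set.Finite.pi (fun l => ?_)).image _
    by_cases hl : l ∈ J
    · rw [if_pos hl]; exact hSfin a l
    · rw [if_neg hl]; exact Set.finite_singleton _
  intro s hsG hbs hlev ρ hρ hρ2
  by_contra hcon
  push Not at hcon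
  have hs0 : ∀ l, s l ≠ 0 := (hgood s hsG hbs).1
  set c : ℝ := ∑ l, α l * Real.log ‖s l‖ with hc
  -- good points of the level in `W` are in the interior
  have hstrict : ∀ p ∈ G, b.eval (p i) ≠ 0 → ∑ l, α l * Real.log ‖p l‖ = c →
      (∀ l ∈ J, ‖p l / s l - 1‖ ≤ ρ) → ∀ l ∈ J, ‖p l / s l - 1‖ < ρ := by
    intro p hp hbp hlp hW l hl
    exact lt_of_le_of_ne (hW l hl) (hcon p hp hbp hlp hW l hl)
  set W : Set (Fin n → ℂ) := {p | ∀ l, ‖p l / s l - 1‖ ≤ ρ} with hW
  have hWcl : IsClosed W := by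
    have : W = ⋂ l, {p : Fin n → ℂ | ‖p l / s l - 1‖ ≤ ρ} := by
      ext p; simp [hW]
    rw [this]
    refine isClosed_iInter (fun l => isClosed_le ?_ continuous_const)
    exact (((continuous_apply l).div_const _).sub continuous_const).norm
  have hWcpt : IsCompact W := by
    refine Metric.isCompact_of_isClosed_isBounded hWcl ?_
    refine (Metric.isBounded_closedBall (x := (0 : Fin n → ℂ)) (r := 2 * ‖s‖)).subset ?_
    intro p hp
    rw [mem_closedBall, dist_zero_right]
    refine (pi_norm_le_iff_of_nonneg (by positivity)).mpr (fun l => ?_)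
    have h1 : ‖p l / s l‖ ≤ 2 := by
      calc ‖p l / s l‖ = ‖(p l / s l - 1) + 1‖ := by congr 1; ring
        _ ≤ ‖p l / s l - 1‖ + ‖(1 : ℂ)‖ := norm_add_le _ _
        _ ≤ ρ + 1 := by rw [norm_one]; linarith [hp l]
        _ ≤ 2 := by linarith
    rw [norm_div, div_le_iff₀ (norm_pos_iff.mpr (hs0 l))] at h1
    refine h1.trans ?_
    have := norm_le_pi_norm s l
    linarith
  have hW0 : ∀ p : Fin n → ℂ, (∀ l ∈ J, ‖p l / s l - 1‖ ≤ ρ) → ∀ l ∈ J, p l ≠ 0 := by
    intro p hp l hl h0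
    have := hp l hl
    rw [h0, zero_div, zero_sub, norm_neg, norm_one] at this
    linarith
  have hPhiC : ContinuousOn (Phi α s) W := by
    unfold Phi
    refine continuousOn_finsetSum _ (fun l _ => ?_)
    refine continuousOn_const.mul ?_
    refine ContinuousOn.clog ?_ (fun p hp => slit_of_near hρ2 (hp l))
    exact ((continuous_apply l).div_const _).continuousOn
  -- truncation to the coordinates in `J`
  set tr : (Fin n → ℂ) → Fin n → ℂ := fun p l => if l ∈ J then p l else s l with htr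
  have htrJ : ∀ p, ∀ l ∈ J, p l = tr p l := fun p l hl => by simp [htr, hl]
  have htrW : ∀ p : Fin n → ℂ, (∀ l ∈ J, ‖p l / s l - 1‖ ≤ ρ) → tr p ∈ W := by
    intro p hp l
    by_cases hl : l ∈ J
    · rw [← htrJ p l hl]; exact hp l hl
    · have : tr p l = s l := by simp [htr, hl]
      rw [this, div_self (hs0 l), sub_self, norm_zero]; exact hρ.le
  set A : Set ℝ := {t | 0 ≤ t ∧ ∃ p ∈ G, (∀ l ∈ J, ‖p l / s l - 1‖ ≤ ρ) ∧ b.eval (p i) ≠ 0 ∧
    Phi α s p = t * Complex.I} with hA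
  have h0A : (0 : ℝ) ∈ A := by
    refine ⟨le_refl _, s, hsG, fun l _ => ?_, hbs, ?_⟩
    · rw [div_self (hs0 l), sub_self, norm_zero]; exact hρ.le
    unfold Phi
    rw [Complex.ofReal_zero, zero_mul]
    refine Finset.sum_eq_zero (fun l _ => ?_)
    rw [div_self (hs0 l), Complex.log_one, mul_zero]
  have hAbdd : BddAbove A := by
    refine ⟨∑ l, |α l| * Real.pi, ?_⟩
    rintro t ⟨ht, p, hp, hpW, hbp, hPhi⟩
    have h1 : (Phi α s p).im = t := by rw [hPhi]; simp
    rw [← h1]
    unfold Phi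
    rw [Complex.im_sum]
    refine Finset.sum_le_sum (fun l _ => ?_)
    rw [Complex.im_ofReal_mul]
    calc α l * (Complex.log (p l / s l)).im ≤ |α l * (Complex.log (p l / s l)).im| := le_abs_self _
      _ = |α l| * |(Complex.log (p l / s l)).im| := abs_mul _ _
      _ ≤ |α l| * Real.pi := by
        gcongr
        rw [Complex.log_im]
        exact Complex.abs_arg_le_pi _
  set ts : ℝ := sSup A with hts
  -- a sequence
  obtain ⟨tm, -, htm_lim, htm_mem⟩ := exists_seq_tendsto_sSup ⟨0, h0A⟩ hAbdd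
  choose htm0 pm hpmG hpmW hpmb hpmPhi using htm_mem
  obtain ⟨qs, hqsW, φ, hφ, hqs⟩ := hWcpt.tendsto_subseq (fun m => htrW _ (hpmW m))
  -- convergence of the coordinates in `J`
  have hqsJ : ∀ l ∈ J, Tendsto (fun m => pm (φ m) l) atTop (𝓝 (qs l)) := by
    intro l hl
    have h1 := tendsto_pi_nhds.mp hqs l
    refine h1.congr (fun m => ?_)
    exact (htrJ (pm (φ m)) l hl).symm
  have hPhiqs : Phi α s qs = ts * Complex.I := by
    have h1 : Tendsto (fun m => Phi α s (tr (pm (φ m)))) atTop (𝓝 (Phi α s qs)) := by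
      have := (hPhiC qs hqsW)
      exact this.tendsto.comp (tendsto_nhdsWithin_iff.mpr
        ⟨hqs, Eventually.of_forall (fun m => htrW _ (hpmW _))⟩)
    have h2 : Tendsto (fun m => Phi α s (tr (pm (φ m)))) atTop (𝓝 (ts * Complex.I)) := by
      have h3 : ∀ m, Phi α s (tr (pm (φ m))) = tm (φ m) * Complex.I := by
        intro m
        rw [← Phi_congr J α hα s (pm (φ m)) (tr (pm (φ m))) (htrJ _), hpmPhi]
      simp only [h3]
      refine Tendsto.mul_const _ ?_
      exact (Complex.continuous_ofReal.tendsto _).comp (htm_lim.comp hφ.tendsto_atTop)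
    exact tendsto_nhds_unique h1 h2
  have hlevqs : ∑ l, α l * Real.log ‖qs l‖ = c := by
    have h1 := Phi_reJ J α hα s qs (fun l _ => hs0 l) (hW0 qs (fun l _ => hqsW l))
    rw [hPhiqs] at h1
    simp at h1
    linarith
  have hts0 : 0 ≤ ts := le_csSup hAbdd h0A
  -- `qs` is over a good point
  have hbqs : b.eval (qs i) ≠ 0 := by
    intro hb0
    apply hlev
    rw [Set.mem_iUnion₂]
    refine ⟨qs i, ?_, fun l => if l ∈ J then qs l else 1, ?_, ?_⟩
    · rw [Multiset.mem_toFinset, Polynomial.mem_roots hb]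
      exact hb0
    · intro l _
      by_cases hl : l ∈ J
      · simp only [if_pos hl]
        refine hSlim (qs i) l (qs l) ?_
        rw [mem_closure_iff_seq_limit]
        refine ⟨fun m => (pm (φ m) i, pm (φ m) l), fun m => ⟨?_, ?_⟩, ?_⟩
        · intro h
          apply hpmb (φ m)
          have h' : pm (φ m) i = qs i := h
          rw [h', hb0]
        · exact hf i l _ (hpmG (φ m))
        · exact (hqsJ i hiJ).prodMk_nhds (hqsJ l hl)
      · simp only [if_neg hl]
        exact Set.mem_singleton _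
    · show ∑ l, α l * Real.log ‖(if l ∈ J then qs l else 1 : ℂ)‖ = c
      rw [← hlevqs]
      exact lev_congr J α hα _ _ (fun l hl => by simp only [if_pos hl])
  -- a convergent subsequence
  obtain ⟨r0, C0, hr0, hC0⟩ := hbd (qs i) hbqs
  have hevb : ∀ᶠ m in atTop, pm (φ m) ∈ closedBall (0 : Fin n → ℂ) C0 := by
    have h1 := (hqsJ i hiJ).eventually (ball_mem_nhds _ hr0)
    filter_upwards [h1] with m hm
    rw [mem_closedBall, dist_zero_right]
    exact hC0 _ (hpmG _) hm
  obtain ⟨ps, -, ψ, hψ, hps⟩ := (isCompact_closedBall (0 : Fin n → ℂ) C0).tendsto_subseq'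
    (hevb.frequently)
  have hpsG : ps ∈ G := hG.mem_of_tendsto hps (Eventually.of_forall (fun m => hpmG _))
  have hpsqs : ∀ l ∈ J, ps l = qs l := by
    intro l hl
    exact tendsto_nhds_unique (tendsto_pi_nhds.mp hps l) ((hqsJ l hl).comp hψ.tendsto_atTop)
  have hpsW : ∀ l ∈ J, ‖ps l / s l - 1‖ ≤ ρ := by
    intro l hl
    rw [hpsqs l hl]; exact hqsW l
  have hPhips : Phi α s ps = ts * Complex.I := by
    rw [Phi_congr J α hα s ps qs hpsqs, hPhiqs]
  have hlevps : ∑ l, α l * Real.log ‖ps l‖ = c := by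
    rw [lev_congr J α hα ps qs hpsqs, hlevqs]
  have hbps : b.eval (ps i) ≠ 0 := by rw [hpsqs i hiJ]; exact hbqs
  have hst := hstrict ps hpsG hbps hlevps hpsW
  obtain ⟨hps0, r, g, hr, hgd, hgps, hgz⟩ := hgood ps hpsG hbps
  have hgc : ContinuousAt g (ps i) := (hgd.differentiableAt (ball_mem_nhds _ hr)).continuousAt
  -- near `ps i` the point `g z` is in `W`
  have hev1 : ∀ᶠ z in 𝓝 (ps i), ∀ l ∈ J, ‖g z l / s l - 1‖ < ρ := by
    rw [Filter.eventually_all_finset]
    intro l hl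
    have h1 : ContinuousAt (fun z => ‖g z l / s l - 1‖) (ps i) := by
      have h2 : ContinuousAt (fun z => g z l) (ps i) := (continuousAt_pi.mp hgc l)
      exact ((h2.div_const _).sub continuousAt_const).norm
    refine h1.eventually_lt continuousAt_const ?_
    simp only [hgps]
    exact hst l hl
  obtain ⟨r1, hr1, hr1b⟩ := Metric.eventually_nhds_iff_ball.mp hev1
  set r2 : ℝ := min r r1 with hr2
  have hr2pos : 0 < r2 := lt_min hr hr1
  have hb1 : ∀ z ∈ ball (ps i) r2, z ∈ ball (ps i) r ∧ z ∈ ball (ps i) r1 := fun z hz =>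
    ⟨ball_subset_ball (min_le_left _ _) hz, ball_subset_ball (min_le_right _ _) hz⟩
  have hgW : ∀ z ∈ ball (ps i) r2, ∀ l ∈ J, ‖g z l / s l - 1‖ ≤ ρ := fun z hz l hl =>
    (hr1b z (hb1 z hz).2 l hl).le
  have hgG : ∀ z ∈ ball (ps i) r2, g z ∈ G ∧ g z i = z ∧ b.eval z ≠ 0 := fun z hz =>
    hgz z (hb1 z hz).1
  have hg0 : ∀ z ∈ ball (ps i) r2, ∀ l, g z l ≠ 0 := by
    intro z hz
    obtain ⟨h1, h2, h3⟩ := hgG z hz
    exact (hgood (g z) h1 (by rw [h2]; exact h3)).1
  -- the level is not constant on small balls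
  have hnc : ∀ r3, 0 < r3 → r3 ≤ r2 → ¬ ∃ c' : ℝ, ∀ z ∈ ball (ps i) r3,
      ∑ l, α l * Real.log ‖g z l‖ = c' := by
    intro r3 hr3 hr32
    have hsub : ∀ z ∈ ball (ps i) r3, z ∈ ball (ps i) r2 := fun z hz => ball_subset_ball hr32 hz
    refine (hcurve n J α (ps i) r3 g hQ hr3 (hgd.mono (fun z hz => (hb1 z (hsub z hz)).1))
      (fun z hz => hg0 z (hsub z hz)) ?_ ?_).1
    · refine ⟨i, hiJ, ps i + (r3 / 2 : ℝ), ?_, ?_⟩
      · rw [mem_ball, dist_self_add_left, Complex.norm_real, Real.norm_of_nonneg (by positivity)]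
        linarith
      · have hz : ps i + (r3 / 2 : ℝ) ∈ ball (ps i) r3 := by
          rw [mem_ball, dist_self_add_left, Complex.norm_real, Real.norm_of_nonneg (by positivity)]
          linarith
        rw [(hgG _ (hsub _ hz)).2.1, (hgG _ (hsub _ (mem_ball_self hr3))).2.1]
        intro h
        have : ((r3 / 2 : ℝ) : ℂ) = 0 := by simpa using h
        rw [Complex.ofReal_eq_zero] at this
        linarith
    · intro k l
      exact ⟨f k l, hf0 k l, fun z hz => hf k l _ (hgG z (hsub z hz)).1⟩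
  -- the holomorphic function
  set h : ℂ → ℂ := fun z => ∑ l ∈ J, (α l : ℂ) * Complex.log (g z l / s l) with hh
  have hhPhi : ∀ z, h z = Phi α s (g z) := by
    intro z
    simp only [hh]
    unfold Phi
    refine Finset.sum_subset (Finset.subset_univ J) (fun l _ hl => ?_)
    rw [hα l hl]; simp
  have hhd : DifferentiableOn ℂ h (ball (ps i) r2) := by
    intro z hz
    have h1 : DifferentiableAt ℂ g z := hgd.differentiableAt (isOpen_ball.mem_nhds (hb1 z hz).1)
    refine DifferentiableAt.differentiableWithinAt ?_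
    simp only [hh]
    refine DifferentiableAt.fun_sum (fun l hl => ?_)
    have h3 : DifferentiableAt ℂ (fun z => g z l / s l) z :=
      (differentiableAt_pi.mp h1 l).div_const _
    exact (h3.clog (slit_of_near hρ2 (hgW z hz l hl))).const_mul _
  have hhan : AnalyticAt ℂ h (ps i) := hhd.analyticAt (ball_mem_nhds _ hr2pos)
  have hhps : h (ps i) = ts * Complex.I := by
    rw [hhPhi, hgps, hPhips]
  rcases hhan.eventually_constant_or_nhds_le_map_nhds with hconst | hopen
  · obtain ⟨r3, hr3, hr3b⟩ := Metric.eventually_nhds_iff_ball.mp hconst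
    refine hnc (min r3 r2) (lt_min hr3 hr2pos) (min_le_right _ _) ⟨c, fun z hz => ?_⟩
    have hz3 : z ∈ ball (ps i) r3 := ball_subset_ball (min_le_left _ _) hz
    have hz2 : z ∈ ball (ps i) r2 := ball_subset_ball (min_le_right _ _) hz
    have h1 : Phi α s (g z) = ts * Complex.I := by
      have := hr3b z hz3
      rw [hhps] at this
      rw [← hhPhi]
      exact this
    have h2 := Phi_reJ J α hα s (g z) (fun l _ => hs0 l) (fun l _ => hg0 z hz2 l)
    rw [h1] at h2
    simp at h2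
    linarith
  · have h1 : h '' ball (ps i) r2 ∈ 𝓝 (h (ps i)) :=
      hopen (image_mem_map (ball_mem_nhds _ hr2pos))
    rw [hhps] at h1
    have h2 : Tendsto (fun τ : ℝ => ((ts + τ : ℝ) : ℂ) * Complex.I) (𝓝 0) (𝓝 (ts * Complex.I)) := by
      have : Continuous (fun τ : ℝ => ((ts + τ : ℝ) : ℂ) * Complex.I) := by fun_prop
      have h3 := this.tendsto 0
      simpa using h3
    have h3 := h2.eventually h1
    obtain ⟨τ0, hτ0, hτ0b⟩ := Metric.eventually_nhds_iff_ball.mp h3
    have h4 := hτ0b (τ0 / 2) (by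
      rw [mem_ball, dist_zero_right, Real.norm_of_nonneg (by positivity)]; linarith)
    obtain ⟨z, hz, hzh⟩ := h4
    have h5 : ts + τ0 / 2 ∈ A := by
      refine ⟨by positivity, g z, (hgG z hz).1, hgW z hz, ?_, ?_⟩
      · rw [(hgG z hz).2.1]
        exact (hgG z hz).2.2
      · rw [← hhPhi]; exact hzh
    have h6 := le_csSup hAbdd h5
    rw [← hts] at h6
    linarith

end Pool.Agent.H824.FH
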